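import Pool.Agent.H11.NS.Targets

/-!
# Module AI of the board ns_modules (MP_9b2842_al)
-/

set_option autoImplicit false

open Equiv (Perm)

namespace Pool.Agent.H74.NS.AI

open Pool.Agent.H11.NS

theorem pf_ai : T_AI := by
  intro Γ O _ _ _ θ h5 h3 S hS hsol hidx
  have _ := hS
  have hnt : Nontrivial O := Fintype.one_lt_card_iff_nontrivial.1 (by omega)
  have hle : alternatingGroup O ≤ θ.range := by
    rw [← Equiv.Perm.closure_three_cycles_eq_alternating, Subgroup.closure_le]
    intro ρ hρ
    exact h3 ρ hρ
  -- the normal subgroup of the alternating group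
  let N : Subgroup (alternatingGroup O) := (S.map θ).comap (alternatingGroup O).subtype
  have hN : N.Normal := by
    constructor
    intro x hx y
    obtain ⟨s, hs, hsx⟩ := hx
    obtain ⟨g, hg⟩ := hle y.2
    refine ⟨g * s * g⁻¹, hS.conj_mem s hs g, ?_⟩
    rw [map_mul, map_mul, map_inv, hsx, hg]
    rfl
  have hsimple : IsSimpleGroup (alternatingGroup O) :=
    alternatingGroup.isSimpleGroup (by rw [Nat.card_eq_fintype_card]; exact h5)
  have hbot : N = ⊥ := by
    rcases hN.eq_bot_or_eq_top with h | h
    · exact h
    exfalso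
    have hsub : alternatingGroup O ≤ S.map θ := by
      intro x hx
      have : (⟨x, hx⟩ : alternatingGroup O) ∈ N := by rw [h]; trivial
      exact this
    have _ : Group.IsSolvable S := hsol
    have h1 : Group.IsSolvable (S.map θ) := by
      have hsurj : Function.Surjective (θ.subgroupMap S) := θ.subgroupMap_surjective S
      exact Group.isSolvable_of_surjective hsurj
    have h2 : Group.IsSolvable (alternatingGroup O) :=
      Group.isSolvable_of_isSolvable_injective (f := Subgroup.inclusion hsub)
        (Subgroup.inclusion_injective hsub)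
    have h4 := (IsSimpleGroup.comm_iff_isSolvable (G := alternatingGroup O)).2 h2
    have h5' : IsMulCommutative (alternatingGroup O) := ⟨⟨h4⟩⟩
    rw [alternatingGroup.isMulCommutative_iff_card_le_three, Nat.card_eq_fintype_card] at h5'
    omega
  have hcard : Nat.card (alternatingGroup O) ≤ S.index := by
    have hfin : Finite (Γ ⧸ S) := Nat.finite_of_card_ne_zero hidx
    choose g hg using fun x : alternatingGroup O => hle x.2
    refine Nat.card_le_card_of_injective (fun x => (QuotientGroup.mk (g x) : Γ ⧸ S)) ?_
    intro x y hxy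
    have h6 : (g x)⁻¹ * g y ∈ S := QuotientGroup.eq.1 hxy
    have h7 : x⁻¹ * y ∈ N := by
      refine ⟨(g x)⁻¹ * g y, h6, ?_⟩
      rw [map_mul, map_inv, hg, hg]
      rfl
    rw [hbot, Subgroup.mem_bot] at h7
    exact inv_mul_eq_one.1 h7
  have h8 := two_mul_nat_card_alternatingGroup (α := O)
  rw [Nat.card_perm] at h8
  rw [← Nat.card_eq_fintype_card, ← h8]
  exact Nat.mul_le_mul_left 2 hcard

end Pool.Agent.H74.NS.AI
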