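import Pool.Agent.H11.NS.Targets

/-!
# Module RH of the board ns_modules (MP_9b2842_al)
-/

set_option autoImplicit false

open Equiv (Perm)

namespace Pool.Agent.H74.NS.RH

open Pool.Agent.H11.NS

/-- an additive action of `H` trivial on the kernel of `ψ` gives a representation of `A` -/
theorem exists_rep (W H A : Type) [AddCommGroup W] [Group H] [Group A] (ℓ : ℕ)
    (hz : ∀ x : W, ℓ • x = 0) (ψ : H →* A) (hψ : Function.Surjective ψ)
    (c : H → W →+ W) (c1 : ∀ v, c 1 v = v) (cm : ∀ x y v, c (x * y) v = c x (c y v))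
    (ck : ∀ x ∈ ψ.ker, ∀ v, c x v = v) :
    ∃ (_ : Module (ZMod ℓ) W) (ρ : A →* Module.End (ZMod ℓ) W), ∀ x v, ρ (ψ x) v = c x v := by
  obtain ⟨hm⟩ : Nonempty (Module (ZMod ℓ) W) := ⟨AddCommGroup.zmodModule hz⟩
  let L : (W →+ W) → Module.End (ZMod ℓ) W := fun f =>
    { toFun := f
      map_add' := map_add f
      map_smul' := fun a v => ZMod.map_smul f a v }
  have hL : ∀ (f : W →+ W) (v : W), (L f : W →ₗ[ZMod ℓ] W) v = f v := fun _ _ => rfl
  have e1 : L (c 1) = 1 := LinearMap.ext fun v => by
    rw [hL, c1, Module.End.one_apply]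
  have e2 : ∀ x y, L (c (x * y)) = L (c x) * L (c y) := fun x y => LinearMap.ext fun v => by
    rw [Module.End.mul_apply, hL, hL, hL, cm]
  let r : H →* Module.End (ZMod ℓ) W :=
    { toFun := fun x => L (c x)
      map_one' := e1
      map_mul' := e2 }
  have hk : ψ.ker ≤ r.ker := by
    intro x hx
    have e3 : L (c x) = 1 := LinearMap.ext fun v => by
      rw [hL, ck x hx, Module.End.one_apply]
    exact e3
  refine ⟨hm, (QuotientGroup.lift ψ.ker r hk).comp
    (QuotientGroup.quotientKerEquivOfSurjective ψ hψ).symm.toMonoidHom, ?_⟩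
  intro x v
  have h8 : (QuotientGroup.quotientKerEquivOfSurjective ψ hψ).symm (ψ x) =
      (QuotientGroup.mk x : H ⧸ ψ.ker) := by
    rw [MulEquiv.symm_apply_eq]
    rfl
  have h9 : ((QuotientGroup.lift ψ.ker r hk).comp
      (QuotientGroup.quotientKerEquivOfSurjective ψ hψ).symm.toMonoidHom) (ψ x) = r x := by
    change (QuotientGroup.lift ψ.ker r hk)
      ((QuotientGroup.quotientKerEquivOfSurjective ψ hψ).symm (ψ x)) = r x
    rw [h8]
    rfl
  rw [h9]
  exact hL (c x) v

theorem pf_rh : T_RH := by
  intro H A _ _ ψ hψ V hV ℓ hVc hVe hker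
  let _ : CommGroup V :=
    { (inferInstance : Group V) with
      mul_comm := fun x y => Subtype.ext (hVc x.1 x.2 y.1 y.2) }
  have hz : ∀ x : Additive V, ℓ • x = 0 := by
    intro x
    have h1 : (Additive.toMul x) ^ ℓ = 1 := by
      apply Subtype.ext
      have := hVe (Additive.toMul x).1 (Additive.toMul x).2
      simpa using this
    have h2 : Additive.ofMul ((Additive.toMul x) ^ ℓ) = ℓ • x := rfl
    rw [← h2, h1]
    rfl
  let c : H → Additive V →+ Additive V := fun x =>
    { toFun := fun v => Additive.ofMul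
        (⟨x * ((Additive.toMul v : V) : H) * x⁻¹,
          hV.conj_mem (Additive.toMul v : V) (Additive.toMul v).2 x⟩ : V)
      map_zero' := by
        have : (⟨x * ((1 : V) : H) * x⁻¹, hV.conj_mem (1 : V) (1 : V).2 x⟩ : V) = 1 :=
          Subtype.ext (by simp)
        exact congrArg Additive.ofMul this
      map_add' := by
        intro v w
        have : (⟨x * (((Additive.toMul v : V) * (Additive.toMul w : V) : V) : H) * x⁻¹,
            hV.conj_mem _ ((Additive.toMul v : V) * (Additive.toMul w : V)).2 x⟩ : V) =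
            ⟨x * ((Additive.toMul v : V) : H) * x⁻¹,
              hV.conj_mem (Additive.toMul v : V) (Additive.toMul v).2 x⟩ *
            ⟨x * ((Additive.toMul w : V) : H) * x⁻¹,
              hV.conj_mem (Additive.toMul w : V) (Additive.toMul w).2 x⟩ :=
          Subtype.ext (by
            change x * ((((Additive.toMul v : V) : H)) * ((Additive.toMul w : V) : H)) * x⁻¹ =
              (x * ((Additive.toMul v : V) : H) * x⁻¹) * (x * ((Additive.toMul w : V) : H) * x⁻¹)
            group)
        exact congrArg Additive.ofMul this }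
  have c1 : ∀ v, c 1 v = v := by
    intro v
    have : (⟨(1 : H) * ((Additive.toMul v : V) : H) * (1 : H)⁻¹,
      hV.conj_mem (Additive.toMul v : V) (Additive.toMul v).2 1⟩ : V) = Additive.toMul v :=
      Subtype.ext (by simp)
    exact congrArg Additive.ofMul this
  have cm : ∀ x y v, c (x * y) v = c x (c y v) := by
    intro x y v
    have : (⟨(x * y) * ((Additive.toMul v : V) : H) * (x * y)⁻¹,
      hV.conj_mem (Additive.toMul v : V) (Additive.toMul v).2 (x * y)⟩ : V) =
      ⟨x * (y * ((Additive.toMul v : V) : H) * y⁻¹) * x⁻¹,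
        hV.conj_mem _ (hV.conj_mem (Additive.toMul v : V) (Additive.toMul v).2 y) x⟩ :=
      Subtype.ext (by group)
    exact congrArg Additive.ofMul this
  have ck : ∀ x ∈ ψ.ker, ∀ v, c x v = v := by
    intro x hx v
    have h2 : (⟨x * ((Additive.toMul v : V) : H) * x⁻¹,
        hV.conj_mem (Additive.toMul v : V) (Additive.toMul v).2 x⟩ : V) = Additive.toMul v :=
      Subtype.ext (hker x hx _ (Additive.toMul v).2)
    exact congrArg Additive.ofMul h2
  obtain ⟨hm, ρ, hρ⟩ := exists_rep (Additive V) H A ℓ hz ψ hψ c c1 cm ck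
  exact ⟨Additive V, inferInstance, hm, ρ, Additive.ofMul, fun x y => rfl,
    fun x v => hρ x (Additive.ofMul v)⟩

end Pool.Agent.H74.NS.RH
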